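import Mathlib

/-!
# (1+1) EA for makespan scheduling with an adversary: the order is `n ^ (3/2)`

Lower bound `T*(n) ≥ n ^ (3/2) / 6000` for `n ≥ 400`, matching the known upper bound `O(n ^ (3/2))`.

Adversary: jobs on machine 1 get processing time `1`, jobs on machine 2 get `1 / n`. A mutation is
accepted only if it moves a job away from machine 1; but such a mutation also moves, on average,
almost one job from machine 2 back to machine 1, and the adversary makes it heavy again. So the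
number of jobs on machine 1 makes almost unbiased steps at rate about `k / n`.
The potential is `Φ = (K - k0) ^ 2 + 2 B ^ 2`, where `k0 = ⌊√n⌋`, `K` is the number of jobs on
machine 1 and `B` the number of jobs whose processing time is not yet adjusted.
-/

open Finset

namespace Pool.Agent.Results.MP_dc81eb_lc.ThreeHalves

variable {n : ℕ}

/-- Load of machine `b` (`false`: machine 1, `true`: machine 2). -/
noncomputable def load (p : Fin n → ℝ) (x : Fin n → Bool) (b : Bool) : ℝ :=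
  ∑ i, if x i = b then p i else 0

/-- The makespan. -/
noncomputable def makespan (p : Fin n → ℝ) (x : Fin n → Bool) : ℝ :=
  max (load p x false) (load p x true)

/-- The discrepancy. -/
noncomputable def disc (p : Fin n → ℝ) (x : Fin n → Bool) : ℝ :=
  |load p x false - load p x true|

/-- Flip the bits in `S`. -/
def flip (x : Fin n → Bool) (S : Finset (Fin n)) : Fin n → Bool :=
  fun i => if i ∈ S then !(x i) else x i

/-- Probability that exactly the bits in `S` are flipped, every bit being flipped independently with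
probability `1 / n`. -/
noncomputable def wt (S : Finset (Fin n)) : ℝ :=
  (1 / (n : ℝ)) ^ S.card * (1 - 1 / (n : ℝ)) ^ (n - S.card)

/-- A configuration: current solution and current processing times. -/
structure Conf (n : ℕ) where
  /-- the current solution -/
  x : Fin n → Bool
  /-- the current processing times -/
  p : Fin n → ℝ

/-- An adaptive adversary: from the current configuration and the list of all earlier configurations
it computes the new processing times. -/
abbrev Adv (n : ℕ) : Type := Conf n → List (Conf n) → Fin n → ℝ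

/-- The adversary changes at most one processing time in each iteration and stays in `[L, U]`. -/
def Valid (L U : ℝ) (A : Adv n) : Prop :=
  ∀ (c : Conf n) (h : List (Conf n)), (∀ i, L ≤ c.p i ∧ c.p i ≤ U) →
    (∀ i, L ≤ A c h i ∧ A c h i ≤ U) ∧ {i | A c h i ≠ c.p i}.Subsingleton

/-- One iteration: the adversary changes the processing times to `A c h`, then the mutation `S` is
performed and accepted if the makespan does not increase. -/
noncomputable def next (A : Adv n) (c : Conf n) (h : List (Conf n)) (S : Finset (Fin n)) : Conf n :=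
  ⟨if makespan (A c h) (flip c.x S) ≤ makespan (A c h) c.x then flip c.x S else c.x, A c h⟩

/-- `P(T > N)` from the configuration `c` with history `h`. Here `T` is the first iteration in which
the discrepancy of the current solution is at most `U` with respect to the processing times before
or after the change of the adversary in this iteration. -/
noncomputable def survive (U : ℝ) (A : Adv n) : ℕ → Conf n → List (Conf n) → ℝ
  | 0, c, h => open Classical in if disc c.p c.x ≤ U ∨ disc (A c h) c.x ≤ U then 0 else 1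
  | N + 1, c, h => open Classical in if disc c.p c.x ≤ U ∨ disc (A c h) c.x ≤ U then 0 else
      ∑ S : Finset (Fin n), wt S * survive U A N (next A c h S) (c :: h)

/-- `E[T] = ∑ N, P(T > N)`. -/
noncomputable def expT (U : ℝ) (A : Adv n) (c : Conf n) : ENNReal :=
  ∑' N : ℕ, ENNReal.ofReal (survive U A N c [])

/-- `T*(n)`: the supremum of `E[T]` over all `0 < L ≤ U`, all initial configurations with processing
times in `[L, U]` and all adversaries. -/
noncomputable def Tstar (n : ℕ) : ENNReal :=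
  ⨆ (L : ℝ) (U : ℝ) (_ : 0 < L ∧ L ≤ U) (c : Conf n) (_ : ∀ i, L ≤ c.p i ∧ c.p i ≤ U)
    (A : Adv n) (_ : Valid L U A), expT U A c

/-! ### Moments of the mutation -/

lemma wt_nonneg (hn : 1 ≤ n) (S : Finset (Fin n)) : 0 ≤ wt S := by
  unfold wt
  have h1 : (1 : ℝ) ≤ n := by exact_mod_cast hn
  have h2 : 1 / (n : ℝ) ≤ 1 := by rw [div_le_one (by linarith)]; exact h1
  have h3 : 0 ≤ 1 - 1 / (n : ℝ) := by linarith
  positivity

lemma prob_sub (F : Finset (Fin n)) :
    ∑ S : Finset (Fin n), wt S * (if F ⊆ S then 1 else 0) = (1 / (n : ℝ)) ^ F.card := by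
  classical
  have h := Finset.prod_add (fun _ : Fin n => 1 / (n : ℝ))
    (fun i => if i ∈ F then 0 else 1 - 1 / (n : ℝ)) Finset.univ
  have hl : ∏ i : Fin n, (1 / (n : ℝ) + (if i ∈ F then 0 else 1 - 1 / (n : ℝ))) =
      (1 / (n : ℝ)) ^ F.card := by
    have : ∀ i : Fin n, (1 / (n : ℝ) + (if i ∈ F then 0 else 1 - 1 / (n : ℝ))) =
        if i ∈ F then 1 / (n : ℝ) else 1 := by
      intro i; split_ifs <;> ring
    rw [Finset.prod_congr rfl (fun i _ => this i), Finset.prod_ite_mem, Finset.univ_inter,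
      Finset.prod_const]
  rw [hl, Finset.powerset_univ] at h
  rw [h]
  apply Finset.sum_congr rfl
  intro S _
  rw [Finset.prod_const]
  by_cases hF : F ⊆ S
  · rw [if_pos hF, mul_one]
    unfold wt
    congr 1
    have : ∀ i ∈ Finset.univ \ S, (if i ∈ F then 0 else 1 - 1 / (n : ℝ)) = 1 - 1 / (n : ℝ) := by
      intro i hi
      rw [Finset.mem_sdiff] at hi
      rw [if_neg (fun h => hi.2 (hF h))]
    rw [Finset.prod_congr rfl this, Finset.prod_const, Finset.card_sdiff_of_subset
      (Finset.subset_univ S), Finset.card_univ, Fintype.card_fin]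
  · rw [if_neg hF, mul_zero]
    obtain ⟨i, hi, hiS⟩ := Finset.not_subset.1 hF
    have : ∏ i ∈ Finset.univ \ S, (if i ∈ F then 0 else 1 - 1 / (n : ℝ)) = 0 := by
      apply Finset.prod_eq_zero (i := i)
      · simp [hiS]
      · rw [if_pos hi]
    rw [this, mul_zero]

/-- expectation over the mutation -/
noncomputable def Ex (f : Finset (Fin n) → ℝ) : ℝ := ∑ S : Finset (Fin n), wt S * f S

lemma Ex_add (f g : Finset (Fin n) → ℝ) : Ex (fun S => f S + g S) = Ex f + Ex g := by
  unfold Ex; rw [← Finset.sum_add_distrib]; apply Finset.sum_congr rfl; intro S _; ring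

lemma Ex_sub (f g : Finset (Fin n) → ℝ) : Ex (fun S => f S - g S) = Ex f - Ex g := by
  unfold Ex; rw [← Finset.sum_sub_distrib]; apply Finset.sum_congr rfl; intro S _; ring

lemma Ex_mul (c : ℝ) (f : Finset (Fin n) → ℝ) : Ex (fun S => c * f S) = c * Ex f := by
  unfold Ex; rw [Finset.mul_sum]; apply Finset.sum_congr rfl; intro S _; ring

lemma Ex_const (c : ℝ) : Ex (fun _ : Finset (Fin n) => c) = c := by
  have := prob_sub (∅ : Finset (Fin n))
  simp only [Finset.empty_subset, if_true, Finset.card_empty, pow_zero] at this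
  unfold Ex
  calc _ = c * ∑ S : Finset (Fin n), wt S * 1 := by
        rw [Finset.mul_sum]; apply Finset.sum_congr rfl; intro S _; ring
    _ = c := by rw [this, mul_one]

lemma Ex_mono (hn : 1 ≤ n) {f g : Finset (Fin n) → ℝ} (h : ∀ S, f S ≤ g S) : Ex f ≤ Ex g := by
  unfold Ex
  exact Finset.sum_le_sum fun S _ => mul_le_mul_of_nonneg_left (h S) (wt_nonneg hn S)

lemma Ex_sum {ι : Type*} (s : Finset ι) (f : ι → Finset (Fin n) → ℝ) :
    Ex (fun S => ∑ i ∈ s, f i S) = ∑ i ∈ s, Ex (f i) := by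
  unfold Ex
  rw [Finset.sum_comm]
  apply Finset.sum_congr rfl
  intro S _
  rw [Finset.mul_sum]

/-- indicator that bit `i` is flipped -/
noncomputable def xi (i : Fin n) (S : Finset (Fin n)) : ℝ := if i ∈ S then 1 else 0

/-- number of flipped bits in `M` -/
noncomputable def cnt (M : Finset (Fin n)) (S : Finset (Fin n)) : ℝ := ∑ i ∈ M, xi i S

lemma Ex_xi (i : Fin n) : Ex (xi i) = 1 / n := by
  have := prob_sub ({i} : Finset (Fin n))
  simpa [Ex, xi] using this

lemma Ex_xi2 {i j : Fin n} (h : i ≠ j) : Ex (fun S => xi i S * xi j S) = (1 / (n : ℝ)) ^ 2 := by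
  have := prob_sub ({i, j} : Finset (Fin n))
  rw [Finset.card_pair h] at this
  rw [← this]
  unfold Ex
  apply Finset.sum_congr rfl
  intro S _
  congr 1
  unfold xi
  simp only [Finset.insert_subset_iff, Finset.singleton_subset_iff]
  by_cases h1 : i ∈ S <;> by_cases h2 : j ∈ S <;> simp [h1, h2]

lemma Ex_xi3 {i j k : Fin n} (h1 : i ≠ j) (h2 : i ≠ k) (h3 : j ≠ k) :
    Ex (fun S => xi i S * xi j S * xi k S) = (1 / (n : ℝ)) ^ 3 := by
  have := prob_sub ({i, j, k} : Finset (Fin n))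
  rw [Finset.card_eq_three.2 ⟨i, j, k, h1, h2, h3, rfl⟩] at this
  rw [← this]
  unfold Ex
  apply Finset.sum_congr rfl
  intro S _
  congr 1
  unfold xi
  simp only [Finset.insert_subset_iff, Finset.singleton_subset_iff]
  by_cases g1 : i ∈ S <;> by_cases g2 : j ∈ S <;> by_cases g3 : k ∈ S <;> simp [g1, g2, g3]

lemma xi_sq (i : Fin n) (S : Finset (Fin n)) : xi i S * xi i S = xi i S := by
  unfold xi; split_ifs <;> simp

lemma xi_nonneg (i : Fin n) (S : Finset (Fin n)) : 0 ≤ xi i S := by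
  unfold xi; split_ifs <;> simp

lemma m1 (M : Finset (Fin n)) : Ex (cnt M) = M.card * (1 / n) := by
  unfold cnt
  rw [Ex_sum M (fun i S => xi i S)]
  rw [Finset.sum_congr rfl (fun i _ => Ex_xi i), Finset.sum_const, nsmul_eq_mul]

lemma m2 (M : Finset (Fin n)) :
    Ex (fun S => cnt M S * cnt M S) ≤ M.card * (1 / n) + (M.card : ℝ) ^ 2 * (1 / n) ^ 2 := by
  have e : ∀ S, cnt M S * cnt M S = ∑ i ∈ M, ∑ j ∈ M, xi i S * xi j S := by
    intro S; unfold cnt; rw [Finset.sum_mul_sum]
  simp only [e]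
  rw [Ex_sum]
  have h : ∀ i ∈ M, Ex (fun S => ∑ j ∈ M, xi i S * xi j S) ≤
      1 / n + M.card * (1 / (n : ℝ)) ^ 2 := by
    intro i hi
    rw [Ex_sum]
    have h2 : ∀ j ∈ M, Ex (fun S => xi i S * xi j S) ≤
        (if j = i then 1 / (n : ℝ) else 0) + (1 / (n : ℝ)) ^ 2 := by
      intro j _
      by_cases hij : j = i
      · subst hij
        rw [if_pos rfl]
        simp only [xi_sq]
        have := Ex_xi j
        have h3 : (0 : ℝ) ≤ (1 / (n : ℝ)) ^ 2 := by positivity
        change Ex (xi j) ≤ _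
        linarith
      · rw [if_neg hij, Ex_xi2 (fun h => hij h.symm)]; linarith
    refine (Finset.sum_le_sum h2).trans ?_
    rw [Finset.sum_add_distrib, Finset.sum_ite_eq', if_pos hi, Finset.sum_const, nsmul_eq_mul]
  refine (Finset.sum_le_sum h).trans ?_
  rw [Finset.sum_const, nsmul_eq_mul]
  apply le_of_eq; ring

lemma m11 {M M' : Finset (Fin n)} (hd : Disjoint M M') :
    Ex (fun S => cnt M S * cnt M' S) = M.card * M'.card * (1 / (n : ℝ)) ^ 2 := by
  have e : ∀ S, cnt M S * cnt M' S = ∑ i ∈ M, ∑ j ∈ M', xi i S * xi j S := by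
    intro S; unfold cnt; rw [Finset.sum_mul_sum]
  simp only [e]
  rw [Ex_sum]
  have h : ∀ i ∈ M, Ex (fun S => ∑ j ∈ M', xi i S * xi j S) = M'.card * (1 / (n : ℝ)) ^ 2 := by
    intro i hi
    rw [Ex_sum]
    have h2 : ∀ j ∈ M', Ex (fun S => xi i S * xi j S) = (1 / (n : ℝ)) ^ 2 := by
      intro j hj
      exact Ex_xi2 (fun h => (Finset.disjoint_left.1 hd) hi (h ▸ hj))
    rw [Finset.sum_congr rfl h2, Finset.sum_const, nsmul_eq_mul]
  rw [Finset.sum_congr rfl h, Finset.sum_const, nsmul_eq_mul]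
  ring

lemma m12 {M M' : Finset (Fin n)} (hd : Disjoint M M') :
    Ex (fun S => cnt M S * (cnt M' S * cnt M' S)) ≤
      M.card * M'.card * (1 / (n : ℝ)) ^ 2 + M.card * (M'.card : ℝ) ^ 2 * (1 / (n : ℝ)) ^ 3 := by
  have e : ∀ S, cnt M S * (cnt M' S * cnt M' S) =
      ∑ i ∈ M, ∑ j ∈ M', ∑ k ∈ M', xi i S * xi j S * xi k S := by
    intro S; unfold cnt
    rw [Finset.sum_mul_sum, Finset.sum_mul]
    apply Finset.sum_congr rfl; intro i _
    rw [Finset.mul_sum]
    apply Finset.sum_congr rfl; intro j _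
    rw [Finset.mul_sum]
    apply Finset.sum_congr rfl; intro k _
    ring
  simp only [e]
  rw [Ex_sum]
  have h : ∀ i ∈ M, Ex (fun S => ∑ j ∈ M', ∑ k ∈ M', xi i S * xi j S * xi k S) ≤
      M'.card * (1 / (n : ℝ)) ^ 2 + (M'.card : ℝ) ^ 2 * (1 / (n : ℝ)) ^ 3 := by
    intro i hi
    rw [Ex_sum]
    have h1 : ∀ j ∈ M', Ex (fun S => ∑ k ∈ M', xi i S * xi j S * xi k S) ≤
        (1 / (n : ℝ)) ^ 2 + M'.card * (1 / (n : ℝ)) ^ 3 := by
      intro j hj
      have hij : i ≠ j := fun h => (Finset.disjoint_left.1 hd) hi (h ▸ hj)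
      rw [Ex_sum]
      have h2 : ∀ k ∈ M', Ex (fun S => xi i S * xi j S * xi k S) ≤
          (if k = j then (1 / (n : ℝ)) ^ 2 else 0) + (1 / (n : ℝ)) ^ 3 := by
        intro k hk
        have hik : i ≠ k := fun h => (Finset.disjoint_left.1 hd) hi (h ▸ hk)
        by_cases hkj : k = j
        · subst hkj
          rw [if_pos rfl]
          have h3 : (0 : ℝ) ≤ (1 / (n : ℝ)) ^ 3 := by positivity
          have : (fun S => xi i S * xi k S * xi k S) = fun S => xi i S * xi k S := by
            funext S; rw [mul_assoc, xi_sq]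
          rw [this, Ex_xi2 hij]
          linarith
        · rw [if_neg hkj, Ex_xi3 hij hik (fun h => hkj h.symm)]; linarith
      refine (Finset.sum_le_sum h2).trans ?_
      rw [Finset.sum_add_distrib, Finset.sum_ite_eq', if_pos hj, Finset.sum_const, nsmul_eq_mul]
    refine (Finset.sum_le_sum h1).trans ?_
    rw [Finset.sum_const, nsmul_eq_mul]
    apply le_of_eq; ring
  refine (Finset.sum_le_sum h).trans ?_
  rw [Finset.sum_const, nsmul_eq_mul]
  apply le_of_eq; ring

lemma m21 {M M' : Finset (Fin n)} (hd : Disjoint M M') :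
    Ex (fun S => (cnt M S * cnt M S) * cnt M' S) ≤
      M.card * M'.card * (1 / (n : ℝ)) ^ 2 + (M.card : ℝ) ^ 2 * M'.card * (1 / (n : ℝ)) ^ 3 := by
  have h := m12 hd.symm
  have e : (fun S => (cnt M S * cnt M S) * cnt M' S) =
      fun S => cnt M' S * (cnt M S * cnt M S) := by funext S; ring
  rw [e]
  refine h.trans (le_of_eq ?_)
  ring


/-! ### The adversary -/

/-- target processing time of a job on machine `b` -/
noncomputable def tgt (n : ℕ) (b : Bool) : ℝ := if b then 1 / (n : ℝ) else 1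

open Classical in
/-- jobs whose processing time is not the target -/
noncomputable def bad (p : Fin n → ℝ) (x : Fin n → Bool) : Finset (Fin n) :=
  Finset.univ.filter (fun i => p i ≠ tgt n (x i))

open Classical in
/-- the adversary adjusts one processing time -/
noncomputable def adj (p : Fin n → ℝ) (x : Fin n → Bool) : Fin n → ℝ :=
  if h : (bad p x).Nonempty then Function.update p h.choose (tgt n (x h.choose)) else p

/-- the adversary -/
noncomputable def adv : Adv n := fun c _ => adj c.p c.x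

/-- jobs on machine 1 -/
def m1s (x : Fin n → Bool) : Finset (Fin n) := Finset.univ.filter (fun i => x i = false)

/-- jobs on machine 2 -/
def m2s (x : Fin n → Bool) : Finset (Fin n) := Finset.univ.filter (fun i => x i = true)

lemma mem_bad (p : Fin n → ℝ) (x : Fin n → Bool) (i : Fin n) :
    i ∈ bad p x ↔ p i ≠ tgt n (x i) := by
  classical
  unfold bad; simp

lemma adj_bad (p : Fin n → ℝ) (x : Fin n → Bool) :
    (bad (adj p x) x).card = (bad p x).card - 1 := by
  classical
  by_cases h : (bad p x).Nonempty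
  · have e : adj p x = Function.update p h.choose (tgt n (x h.choose)) := by
      unfold adj; rw [dif_pos h]
    have e2 : bad (adj p x) x = (bad p x).erase h.choose := by
      ext i
      rw [Finset.mem_erase, mem_bad, mem_bad, e]
      by_cases hi : i = h.choose
      · rw [hi]; simp
      · rw [Function.update_of_ne hi]; simp [hi]
    rw [e2, Finset.card_erase_of_mem h.choose_spec]
  · have e : adj p x = p := by unfold adj; rw [dif_neg h]
    rw [e]
    rw [Finset.not_nonempty_iff_eq_empty] at h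
    rw [h]; simp

lemma tgt_mem (hn : 1 ≤ n) (b : Bool) : 1 / (n : ℝ) ≤ tgt n b ∧ tgt n b ≤ 1 := by
  have h1 : (1 : ℝ) ≤ n := by exact_mod_cast hn
  have h2 : 1 / (n : ℝ) ≤ 1 := by rw [div_le_one (by linarith)]; exact h1
  unfold tgt
  cases b <;> simp only [if_true, if_false, Bool.false_eq_true] <;>
    exact ⟨by linarith, by linarith⟩

lemma adj_range (hn : 1 ≤ n) {p : Fin n → ℝ} (x : Fin n → Bool)
    (hp : ∀ i, 1 / (n : ℝ) ≤ p i ∧ p i ≤ 1) (i : Fin n) :
    1 / (n : ℝ) ≤ adj p x i ∧ adj p x i ≤ 1 := by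
  classical
  unfold adj
  split_ifs with h
  · by_cases hi : i = h.choose
    · rw [hi, Function.update_self]; exact tgt_mem hn _
    · rw [Function.update_of_ne hi]; exact hp i
  · exact hp i

lemma adv_valid (hn : 1 ≤ n) : Valid (1 / (n : ℝ)) 1 (adv : Adv n) := by
  classical
  intro c h hp
  refine ⟨fun i => adj_range hn c.x hp i, ?_⟩
  intro i hi j hj
  change adj c.p c.x i ≠ c.p i at hi
  change adj c.p c.x j ≠ c.p j at hj
  unfold adj at hi hj
  split_ifs at hi hj with hb
  · by_cases h1 : i = hb.choose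
    · by_cases h2 : j = hb.choose
      · rw [h1, h2]
      · rw [Function.update_of_ne h2] at hj; exact absurd rfl hj
    · rw [Function.update_of_ne h1] at hi; exact absurd rfl hi
  · exact absurd rfl hi

lemma cnt_card (M S : Finset (Fin n)) : cnt M S = ((M ∩ S).card : ℝ) := by
  unfold cnt xi
  rw [Finset.sum_ite_mem, Finset.sum_const, nsmul_eq_mul, mul_one]

lemma card_m1s (x : Fin n → Bool) :
    ((m1s x).card : ℝ) = ∑ i, if x i = false then (1 : ℝ) else 0 := by
  unfold m1s; rw [Finset.sum_boole]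

lemma card_m2s (x : Fin n → Bool) :
    ((m2s x).card : ℝ) = ∑ i, if x i = true then (1 : ℝ) else 0 := by
  unfold m2s; rw [Finset.sum_boole]

lemma card_add (x : Fin n → Bool) : ((m1s x).card : ℝ) + (m2s x).card = n := by
  rw [card_m1s, card_m2s, ← Finset.sum_add_distrib]
  have : ∀ i ∈ Finset.univ, ((if x i = false then (1 : ℝ) else 0) + (if x i = true then 1 else 0))
      = 1 := by
    intro i _; cases x i <;> simp
  rw [Finset.sum_congr rfl this]; simp

lemma disj_m (x : Fin n → Bool) : Disjoint (m1s x) (m2s x) := by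
  rw [Finset.disjoint_left]
  intro i h1 h2
  simp only [m1s, m2s, Finset.mem_filter, Finset.mem_univ, true_and] at h1 h2
  rw [h1] at h2; simp at h2

lemma card_bad (p : Fin n → ℝ) (x : Fin n → Bool) :
    ((bad p x).card : ℝ) = ∑ i, if i ∈ bad p x then (1 : ℝ) else 0 := by
  simp

lemma load_false_ge {p : Fin n → ℝ} {x : Fin n → Bool} (hp : ∀ i, 0 ≤ p i) :
    ((m1s x).card : ℝ) - (bad p x).card ≤ load p x false := by
  rw [card_m1s, card_bad, ← Finset.sum_sub_distrib]
  unfold load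
  apply Finset.sum_le_sum
  intro i _
  have h0 := hp i
  by_cases hb : i ∈ bad p x
  · rw [if_pos hb]
    split_ifs <;> linarith
  · rw [if_neg hb]
    rw [mem_bad, not_not] at hb
    by_cases hx : x i = false
    · rw [if_pos hx, if_pos hx, hb, hx]; unfold tgt; simp
    · rw [if_neg hx, if_neg hx]; simp

lemma load_true_le (hn : 1 ≤ n) {p : Fin n → ℝ} {x : Fin n → Bool} (hp : ∀ i, p i ≤ 1) :
    load p x true ≤ (bad p x).card + 1 := by
  have h1 : (1 : ℝ) ≤ n := by exact_mod_cast hn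
  have hi : 0 < 1 / (n : ℝ) := by positivity
  have h2 : ∑ _i : Fin n, (1 / (n : ℝ)) = 1 := by
    rw [Finset.sum_const, Finset.card_univ, Fintype.card_fin, nsmul_eq_mul]; field_simp
  rw [card_bad]
  calc load p x true ≤ ∑ i, ((if i ∈ bad p x then (1 : ℝ) else 0) + 1 / n) := by
        unfold load
        apply Finset.sum_le_sum
        intro i _
        have h0 := hp i
        by_cases hb : i ∈ bad p x
        · rw [if_pos hb]; split_ifs <;> linarith
        · rw [if_neg hb]
          rw [mem_bad, not_not] at hb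
          by_cases hx : x i = true
          · rw [if_pos hx, hb, hx]; unfold tgt; simp
          · rw [if_neg hx]; linarith
    _ = _ := by rw [Finset.sum_add_distrib, h2]

lemma sum_m1s (x : Fin n → Bool) (S : Finset (Fin n)) (p : Fin n → ℝ) :
    ∑ i ∈ m1s x ∩ S, p i = ∑ i, if x i = false ∧ i ∈ S then p i else 0 := by
  rw [← Finset.sum_filter]
  apply Finset.sum_congr _ (fun _ _ => rfl)
  ext i; simp [m1s]

lemma sum_m2s (x : Fin n → Bool) (S : Finset (Fin n)) (p : Fin n → ℝ) :
    ∑ i ∈ m2s x ∩ S, p i = ∑ i, if x i = true ∧ i ∈ S then p i else 0 := by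
  rw [← Finset.sum_filter]
  apply Finset.sum_congr _ (fun _ _ => rfl)
  ext i; simp [m2s]

lemma load_flip_false (p : Fin n → ℝ) (x : Fin n → Bool) (S : Finset (Fin n)) :
    load p (flip x S) false =
      load p x false - ∑ i ∈ m1s x ∩ S, p i + ∑ i ∈ m2s x ∩ S, p i := by
  rw [sum_m1s, sum_m2s]
  unfold load flip
  rw [← Finset.sum_sub_distrib, ← Finset.sum_add_distrib]
  apply Finset.sum_congr rfl
  intro i _
  by_cases h : i ∈ S <;> cases x i <;> simp [h]

lemma load_flip_true (p : Fin n → ℝ) (x : Fin n → Bool) (S : Finset (Fin n)) :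
    load p (flip x S) true =
      load p x true + ∑ i ∈ m1s x ∩ S, p i - ∑ i ∈ m2s x ∩ S, p i := by
  rw [sum_m1s, sum_m2s]
  unfold load flip
  rw [← Finset.sum_add_distrib, ← Finset.sum_sub_distrib]
  apply Finset.sum_congr rfl
  intro i _
  by_cases h : i ∈ S <;> cases x i <;> simp [h]

lemma card_flip (x : Fin n → Bool) (S : Finset (Fin n)) :
    ((m1s (flip x S)).card : ℝ) = (m1s x).card - cnt (m1s x) S + cnt (m2s x) S := by
  have h1 : cnt (m1s x) S = ∑ i, if x i = false ∧ i ∈ S then (1 : ℝ) else 0 := by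
    rw [← sum_m1s x S (fun _ => (1 : ℝ)), cnt_card]; simp
  have h2 : cnt (m2s x) S = ∑ i, if x i = true ∧ i ∈ S then (1 : ℝ) else 0 := by
    rw [← sum_m2s x S (fun _ => (1 : ℝ)), cnt_card]; simp
  rw [h1, h2, card_m1s, card_m1s, ← Finset.sum_sub_distrib, ← Finset.sum_add_distrib]
  apply Finset.sum_congr rfl
  intro i _
  unfold flip
  by_cases h : i ∈ S <;> cases x i <;> simp [h]

lemma card_S (x : Fin n → Bool) (S : Finset (Fin n)) :
    (S.card : ℝ) = cnt (m1s x) S + cnt (m2s x) S := by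
  have h1 : cnt (m1s x) S = ∑ i, if x i = false ∧ i ∈ S then (1 : ℝ) else 0 := by
    rw [← sum_m1s x S (fun _ => (1 : ℝ)), cnt_card]; simp
  have h2 : cnt (m2s x) S = ∑ i, if x i = true ∧ i ∈ S then (1 : ℝ) else 0 := by
    rw [← sum_m2s x S (fun _ => (1 : ℝ)), cnt_card]; simp
  have h3 : (S.card : ℝ) = ∑ i, if i ∈ S then (1 : ℝ) else 0 := by simp
  rw [h1, h2, h3, ← Finset.sum_add_distrib]
  apply Finset.sum_congr rfl
  intro i _
  by_cases h : i ∈ S <;> cases x i <;> simp [h]

lemma bad_flip (p : Fin n → ℝ) (x : Fin n → Bool) (S : Finset (Fin n)) :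
    ((bad p (flip x S)).card : ℝ) ≤ (bad p x).card + S.card := by
  classical
  have h : bad p (flip x S) ⊆ bad p x ∪ S := by
    intro i hi
    rw [Finset.mem_union]
    by_cases hS : i ∈ S
    · right; exact hS
    · left
      rw [mem_bad] at hi ⊢
      unfold flip at hi
      rwa [if_neg hS] at hi
  have := (Finset.card_le_card h).trans (Finset.card_union_le _ _)
  exact_mod_cast this

lemma flip_empty (x : Fin n → Bool) : flip x ∅ = x := by
  funext i; unfold flip; simp

lemma reject (hn : 1 ≤ n) {p : Fin n → ℝ} {x : Fin n → Bool} {S : Finset (Fin n)}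
    (hp : ∀ i, 1 / (n : ℝ) ≤ p i) (hl : load p x true + 1 ≤ load p x false)
    (ha : m1s x ∩ S = ∅) (hb : (m2s x ∩ S).Nonempty) :
    ¬ makespan p (flip x S) ≤ makespan p x := by
  have h1 : (1 : ℝ) ≤ n := by exact_mod_cast hn
  have hi : 0 < 1 / (n : ℝ) := by positivity
  have e1 : makespan p x = load p x false := max_eq_left (by linarith)
  have e2 : load p (flip x S) false ≤ makespan p (flip x S) := le_max_left _ _
  have e3 : 0 < ∑ i ∈ m2s x ∩ S, p i := Finset.sum_pos (fun i _ => hi.trans_le (hp i)) hb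
  rw [load_flip_false, ha, Finset.sum_empty] at e2
  intro h
  rw [e1] at h
  linarith

lemma accept (hn : 1 ≤ n) {p : Fin n → ℝ} {x : Fin n → Bool} {S : Finset (Fin n)}
    (hbad : bad p x = ∅) (hl : load p x true + 1 ≤ load p x false)
    (ha : (m1s x ∩ S).card = 1) :
    makespan p (flip x S) ≤ makespan p x := by
  have h1 : (1 : ℝ) ≤ n := by exact_mod_cast hn
  have hi : 0 < 1 / (n : ℝ) := by positivity
  have hp : ∀ i, p i = tgt n (x i) := by
    intro i
    by_contra h
    have : i ∈ bad p x := (mem_bad p x i).2 h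
    rw [hbad] at this; simp at this
  have e1 : makespan p x = load p x false := max_eq_left (by linarith)
  have s1 : ∑ i ∈ m1s x ∩ S, p i = 1 := by
    have : ∀ i ∈ m1s x ∩ S, p i = 1 := by
      intro i hi
      have hx : x i = false := by
        simp only [m1s, Finset.mem_inter, Finset.mem_filter, Finset.mem_univ, true_and] at hi
        exact hi.1
      rw [hp, hx]; unfold tgt; simp
    rw [Finset.sum_congr rfl this, Finset.sum_const, ha]; simp
  have s2 : ∑ i ∈ m2s x ∩ S, p i ≤ 1 := by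
    have : ∀ i ∈ m2s x ∩ S, p i = 1 / (n : ℝ) := by
      intro i hi
      have hx : x i = true := by
        simp only [m2s, Finset.mem_inter, Finset.mem_filter, Finset.mem_univ, true_and] at hi
        exact hi.1
      rw [hp, hx]; unfold tgt; simp
    rw [Finset.sum_congr rfl this, Finset.sum_const, nsmul_eq_mul]
    have hc : ((m2s x ∩ S).card : ℝ) ≤ n := by
      have := Finset.card_le_univ (m2s x ∩ S)
      rw [Fintype.card_fin] at this
      exact_mod_cast this
    calc _ ≤ (n : ℝ) * (1 / n) := mul_le_mul_of_nonneg_right hc hi.le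
      _ = 1 := by field_simp
  have s3 : 0 ≤ ∑ i ∈ m2s x ∩ S, p i := by
    apply Finset.sum_nonneg
    intro i _
    rw [hp]
    exact hi.le.trans (tgt_mem hn _).1
  rw [e1]
  unfold makespan
  rw [load_flip_false, load_flip_true, s1]
  apply max_le <;> linarith


/-! ### One step -/

lemma next_cases (hn : 1 ≤ n) {c : Conf n} (h : List (Conf n))
    (hp : ∀ i, 1 / (n : ℝ) ≤ c.p i ∧ c.p i ≤ 1)
    (hl : load (adj c.p c.x) c.x true + 1 ≤ load (adj c.p c.x) c.x false)
    (S : Finset (Fin n)) :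
    (cnt (m1s c.x) S = 0 ∧ ((m1s (next adv c h S).x).card : ℝ) = (m1s c.x).card ∧
      ((bad (next adv c h S).p (next adv c h S).x).card : ℝ) =
        (bad (adj c.p c.x) c.x).card) ∨
    ((cnt (m1s c.x) S = 1 ∨ 2 ≤ cnt (m1s c.x) S) ∧
      ((¬ (cnt (m1s c.x) S = 1 ∧ (bad (adj c.p c.x) c.x).card = 0) ∧
        ((m1s (next adv c h S).x).card : ℝ) = (m1s c.x).card ∧
        ((bad (next adv c h S).p (next adv c h S).x).card : ℝ) =
          (bad (adj c.p c.x) c.x).card) ∨
       (((m1s (next adv c h S).x).card : ℝ) =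
          (m1s c.x).card - cnt (m1s c.x) S + cnt (m2s c.x) S ∧
        ((bad (next adv c h S).p (next adv c h S).x).card : ℝ) ≤
          (bad (adj c.p c.x) c.x).card + (cnt (m1s c.x) S + cnt (m2s c.x) S)))) := by
  have hA : (adv : Adv n) c h = adj c.p c.x := rfl
  by_cases hacc : makespan (adj c.p c.x) (flip c.x S) ≤ makespan (adj c.p c.x) c.x
  · -- accepted
    have e : next adv c h S = ⟨flip c.x S, adj c.p c.x⟩ := by
      unfold next; rw [hA, if_pos hacc]
    by_cases ha : m1s c.x ∩ S = ∅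
    · left
      have hb : m2s c.x ∩ S = ∅ := by
        by_contra hb
        exact reject hn (fun i => (adj_range hn c.x hp i).1) hl ha
          (Finset.nonempty_iff_ne_empty.2 hb) hacc
      have hS : S = ∅ := by
        have := card_S c.x S
        rw [cnt_card, cnt_card, ha, hb] at this
        simp at this
        exact this
      rw [e]
      simp only
      rw [hS, flip_empty]
      refine ⟨?_, rfl, rfl⟩
      rw [cnt_card]; simp
    · right
      have hpos : 1 ≤ (m1s c.x ∩ S).card :=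
        Finset.card_pos.2 (Finset.nonempty_iff_ne_empty.2 ha)
      refine ⟨?_, Or.inr ?_⟩
      · rw [cnt_card]
        rcases Nat.lt_or_ge 1 (m1s c.x ∩ S).card with h1 | h1
        · right; exact_mod_cast h1
        · left
          have : (m1s c.x ∩ S).card = 1 := le_antisymm h1 hpos
          rw [this]; simp
      · rw [e]
        simp only
        refine ⟨card_flip c.x S, ?_⟩
        rw [← card_S c.x S]
        exact bad_flip _ _ _
  · -- rejected
    have e : next adv c h S = ⟨c.x, adj c.p c.x⟩ := by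
      unfold next; rw [hA, if_neg hacc]
    by_cases ha : m1s c.x ∩ S = ∅
    · left
      rw [e]
      refine ⟨?_, rfl, rfl⟩
      rw [cnt_card, ha]; simp
    · right
      have hpos : 1 ≤ (m1s c.x ∩ S).card :=
        Finset.card_pos.2 (Finset.nonempty_iff_ne_empty.2 ha)
      refine ⟨?_, Or.inl ?_⟩
      · rw [cnt_card]
        rcases Nat.lt_or_ge 1 (m1s c.x ∩ S).card with h1 | h1
        · right; exact_mod_cast h1
        · left
          have : (m1s c.x ∩ S).card = 1 := le_antisymm h1 hpos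
          rw [this]; simp
      · rw [e]
        refine ⟨?_, rfl, rfl⟩
        rintro ⟨h1, h2⟩
        apply hacc
        rw [cnt_card] at h1
        exact accept hn (Finset.card_eq_zero.1 h2) hl (by exact_mod_cast h1)

lemma cnt_nonneg (M S : Finset (Fin n)) : 0 ≤ cnt M S := by
  rw [cnt_card]; positivity

/-- pointwise bound, `B' = 0` -/
lemma step0 {c a b d B : ℝ} (hb : 0 ≤ b) (hB : 0 ≤ B)
    (h : (a = 0 ∧ d = 0 ∧ B = 0) ∨
      ((a = 1 ∨ 2 ≤ a) ∧ ((a ≠ 1 ∧ d = 0 ∧ B = 0) ∨ (d = b - a ∧ B ≤ a + b)))) :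
    2 * c * d + d ^ 2 + 2 * B ^ 2 ≤
      2 * c * (a * b - a) + 4 * |c| * ((a * a - a) + (a * a * b - a * b)) +
        5 * (a * a + a * (b * b)) := by
  have hc1 : c ≤ |c| := le_abs_self c
  have hc2 : -c ≤ |c| := neg_le_abs c
  have hc0 : 0 ≤ |c| := abs_nonneg c
  rcases h with ⟨h1, h2, h3⟩ | ⟨h1, h2⟩
  · subst h1 h2 h3; simp
  · rcases h1 with h1 | h1
    · subst h1
      rcases h2 with ⟨h2, _⟩ | ⟨h2, h3⟩
      · exact absurd rfl h2
      · subst h2
        have hB2 : B ^ 2 ≤ (1 + b) ^ 2 := pow_le_pow_left₀ hB h3 2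
        nlinarith [sq_nonneg (b - 1)]
    · have haa : a ≤ a * a - a := by nlinarith
      have haab : a * b ≤ a * a * b - a * b := by
        have := mul_le_mul_of_nonneg_right haa hb
        nlinarith
      have ha0 : 0 ≤ a := by linarith
      have hab : 0 ≤ a * b := mul_nonneg ha0 hb
      have hbab : b ≤ a * b := by nlinarith
      have hm : (a + a * b) ≤ (a * a - a) + (a * a * b - a * b) := by linarith
      have hm2 : |c| * (a + a * b) ≤ |c| * ((a * a - a) + (a * a * b - a * b)) :=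
        mul_le_mul_of_nonneg_left hm hc0
      have hm3 : 0 ≤ |c| * a := mul_nonneg hc0 ha0
      have hm4 : 0 ≤ |c| * (a * b) := mul_nonneg hc0 hab
      rcases h2 with ⟨_, h2, h3⟩ | ⟨h2, h3⟩
      · subst h2 h3
        -- need 0 ≤ 2c(ab - a) + 4|c|(..) + 5(..)
        have k1 : -(|c| * (a * b)) ≤ c * (a * b) := by
          have := mul_le_mul_of_nonneg_right hc2 hab
          linarith
        have k2 : c * a ≤ |c| * a := mul_le_mul_of_nonneg_right hc1 ha0
        have k3 : 0 ≤ a * a + a * (b * b) := by positivity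
        have e : 2 * c * (a * b - a) = 2 * (c * (a * b)) - 2 * (c * a) := by ring
        have e2 : 4 * |c| * ((a * a - a) + (a * a * b - a * b)) =
          4 * (|c| * ((a * a - a) + (a * a * b - a * b))) := by ring
        have e3 : |c| * (a + a * b) = |c| * a + |c| * (a * b) := by ring
        rw [e, e2]
        rw [e3] at hm2
        have e4 : 2 * c * 0 + (0 : ℝ) ^ 2 + 2 * 0 ^ 2 = 0 := by ring
        rw [e4]
        linarith
      · subst h2
        have hB2 : B ^ 2 ≤ (a + b) ^ 2 := pow_le_pow_left₀ hB h3 2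
        have k1 : c * b ≤ |c| * (a * b) := by
          have h5 := mul_le_mul_of_nonneg_right hc1 hb
          have h6 := mul_le_mul_of_nonneg_left hbab hc0
          linarith
        have k2 : -(c * (a * b)) ≤ |c| * (a * b) := by
          have := mul_le_mul_of_nonneg_right hc2 hab
          linarith
        have k3 : b * b ≤ a * (b * b) := by nlinarith [mul_nonneg hb hb]
        have k4 : (b - a) ^ 2 + 2 * (a + b) ^ 2 ≤ 5 * (a * a + b * b) := by
          nlinarith [sq_nonneg (a - b)]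
        have e : 2 * c * (a * b - a) = 2 * (c * (a * b)) - 2 * (c * a) := by ring
        have e2 : 4 * |c| * ((a * a - a) + (a * a * b - a * b)) =
          4 * (|c| * ((a * a - a) + (a * a * b - a * b))) := by ring
        have e3 : |c| * (a + a * b) = |c| * a + |c| * (a * b) := by ring
        have e5 : 2 * c * (b - a) = 2 * (c * b) - 2 * (c * a) := by ring
        rw [e, e2, e5]
        rw [e3] at hm2
        linarith

/-- pointwise bound, `B' ≥ 1` -/
lemma step1 {c a b d B B' : ℝ} (hb : 0 ≤ b) (hB : 0 ≤ B) (hB' : 0 ≤ B')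
    (h : (a = 0 ∧ d = 0 ∧ B = B') ∨
      (1 ≤ a ∧ ((d = 0 ∧ B = B') ∨ (d = b - a ∧ B ≤ B' + (a + b))))) :
    2 * c * d + d ^ 2 + 2 * B ^ 2 - 2 * (B' + 1) ^ 2 ≤
      2 * |c| * (a + a * b) + 5 * (a * a + a * (b * b)) + 4 * B' * (a + a * b) -
        4 * B' - 2 := by
  have hc1 : c ≤ |c| := le_abs_self c
  have hc2 : -c ≤ |c| := neg_le_abs c
  have hc0 : 0 ≤ |c| := abs_nonneg c
  rcases h with ⟨h1, h2, h3⟩ | ⟨h1, h2⟩
  · subst h1 h2 h3
    apply le_of_eq; ring
  · have ha0 : 0 ≤ a := by linarith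
    have hab : 0 ≤ a * b := mul_nonneg ha0 hb
    have hbab : b ≤ a * b := by nlinarith
    have k0 : 0 ≤ a * a + a * (b * b) := by positivity
    have m1 : 0 ≤ |c| * (a + a * b) := mul_nonneg hc0 (by linarith)
    have m2 : 0 ≤ B' * (a + a * b) := mul_nonneg hB' (by linarith)
    rcases h2 with ⟨h2, h3⟩ | ⟨h2, h3⟩
    · subst h2 h3
      nlinarith
    · subst h2
      have hB2 : B ^ 2 ≤ (B' + (a + b)) ^ 2 := pow_le_pow_left₀ hB h3 2
      have k3 : b * b ≤ a * (b * b) := by nlinarith [mul_nonneg hb hb]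
      have k4 : (b - a) ^ 2 + 2 * (a + b) ^ 2 ≤ 5 * (a * a + b * b) := by
        nlinarith [sq_nonneg (a - b)]
      have k5 : c * (b - a) ≤ |c| * (a + a * b) := by
        have h5 := mul_le_mul_of_nonneg_right hc1 hb
        have h6 := mul_le_mul_of_nonneg_left hbab hc0
        have h7 := mul_le_mul_of_nonneg_right hc2 ha0
        linarith
      have k6 : B' * (a + b) ≤ B' * (a + a * b) :=
        mul_le_mul_of_nonneg_left (by linarith) hB'
      have e : (B' + (a + b)) ^ 2 = B' ^ 2 + 2 * (B' * (a + b)) + (a + b) ^ 2 := by ring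
      rw [e] at hB2
      have e1 : 2 * c * (b - a) = 2 * (c * (b - a)) := by ring
      have e2 : 2 * |c| * (a + a * b) = 2 * (|c| * (a + a * b)) := by ring
      have e3 : 4 * B' * (a + a * b) = 4 * (B' * (a + a * b)) := by ring
      have e4 : (B' + 1) ^ 2 = B' ^ 2 + 2 * B' + 1 := by ring
      rw [e1, e2, e3, e4]
      linarith

/-- the potential -/
noncomputable def Phi (k0 : ℝ) (c : Conf n) : ℝ :=
  (((m1s c.x).card : ℝ) - k0) ^ 2 + 2 * ((bad c.p c.x).card : ℝ) ^ 2


lemma real0 {k0 c κ β t A B C : ℝ} (hc : |c| ≤ k0 / 5) (hκ : 0 ≤ κ)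
    (hκt : κ ≤ 6 / 5 * t) (hβ : β = 1 - κ) (_hβ0 : 0 ≤ β) (_ht : 0 ≤ t) (ht1 : t ≤ 1 / 20)
    (hkt : k0 * t ≤ 1) (hA : A ≤ κ + κ ^ 2) (hB : B ≤ κ * β + κ ^ 2 * β)
    (hC : C ≤ κ * β + κ * β ^ 2) :
    2 * c * (κ * β - κ) + 4 * |c| * ((A - κ) + (B - κ * β)) + 5 * (A + C) ≤ 42 * t := by
  have hc0 : 0 ≤ |c| := abs_nonneg c
  have h1 : |c| * κ ≤ k0 / 5 * (6 / 5 * t) := mul_le_mul hc hκt hκ (by linarith)
  have h2 : |c| * κ ≤ 6 / 25 := by nlinarith
  have h3 : |c| * κ ^ 2 ≤ 6 / 25 * κ := by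
    have := mul_le_mul_of_nonneg_right h2 hκ
    have e : |c| * κ ^ 2 = |c| * κ * κ := by ring
    rw [e]; exact this
  have hβ1 : β ≤ 1 := by linarith
  have hκ2 : κ ^ 2 ≤ 3 / 50 * κ := by
    have : κ ≤ 3 / 50 := by linarith
    nlinarith
  have h4 : κ * β ≤ κ := by nlinarith
  have h5 : κ * β ^ 2 ≤ κ := by
    have : β ^ 2 ≤ 1 := by nlinarith
    nlinarith
  have h6 : κ ^ 2 * β ≤ κ ^ 2 := by
    have := mul_le_mul_of_nonneg_left hβ1 (sq_nonneg κ)
    linarith
  have h7 : (A - κ) + (B - κ * β) ≤ 2 * κ ^ 2 := by linarith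
  have h8 : 4 * |c| * ((A - κ) + (B - κ * β)) ≤ 8 * (|c| * κ ^ 2) := by
    have := mul_le_mul_of_nonneg_left h7 (by linarith : 0 ≤ 4 * |c|)
    linarith
  have h9 : 2 * c * (κ * β - κ) ≤ 2 * (|c| * κ ^ 2) := by
    have e : 2 * c * (κ * β - κ) = 2 * (-c * κ ^ 2) := by rw [hβ]; ring
    rw [e]
    have := mul_le_mul_of_nonneg_right (neg_le_abs c) (sq_nonneg κ)
    linarith
  linarith

lemma real1 {k0 c κ β t A C B' : ℝ} (hc : |c| ≤ k0 / 5) (hκ : 0 ≤ κ)
    (hκt : κ ≤ 6 / 5 * t) (hβ : β = 1 - κ) (_hβ0 : 0 ≤ β) (_ht : 0 ≤ t) (ht1 : t ≤ 1 / 20)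
    (hkt : k0 * t ≤ 1) (hA : A ≤ κ + κ ^ 2) (hC : C ≤ κ * β + κ * β ^ 2) (hB' : 1 ≤ B') :
    2 * |c| * (κ + κ * β) + 5 * (A + C) + 4 * B' * (κ + κ * β) - 4 * B' - 2 ≤ 42 * t := by
  have hc0 : 0 ≤ |c| := abs_nonneg c
  have h1 : |c| * κ ≤ k0 / 5 * (6 / 5 * t) := mul_le_mul hc hκt hκ (by linarith)
  have h2 : |c| * κ ≤ 6 / 25 := by nlinarith
  have hβ1 : β ≤ 1 := by linarith
  have hκs : κ ≤ 3 / 50 := by linarith
  have hκ2 : κ ^ 2 ≤ 3 / 50 * κ := by nlinarith
  have h4 : κ * β ≤ κ := by nlinarith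
  have h5 : κ * β ^ 2 ≤ κ := by
    have : β ^ 2 ≤ 1 := by nlinarith
    nlinarith
  have h6 : κ + κ * β ≤ 2 * κ := by linarith
  have h7 : 2 * |c| * (κ + κ * β) ≤ 4 * (|c| * κ) := by
    have := mul_le_mul_of_nonneg_left h6 (by linarith : 0 ≤ 2 * |c|)
    linarith
  have h8 : 4 * B' * (κ + κ * β) ≤ 4 * B' * (3 / 25) :=
    mul_le_mul_of_nonneg_left (by linarith) (by linarith)
  linarith

lemma moments (hn : 1 ≤ n) (x : Fin n → Bool) :
    let κ := ((m1s x).card : ℝ) / n
    let β := ((m2s x).card : ℝ) / n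
    β = 1 - κ ∧ 0 ≤ κ ∧ 0 ≤ β ∧
    Ex (cnt (m1s x)) = κ ∧
    Ex (fun S => cnt (m1s x) S * cnt (m2s x) S) = κ * β ∧
    Ex (fun S => cnt (m1s x) S * cnt (m1s x) S) ≤ κ + κ ^ 2 ∧
    Ex (fun S => cnt (m1s x) S * cnt (m1s x) S * cnt (m2s x) S) ≤ κ * β + κ ^ 2 * β ∧
    Ex (fun S => cnt (m1s x) S * (cnt (m2s x) S * cnt (m2s x) S)) ≤ κ * β + κ * β ^ 2 := by
  intro κ β
  have h1 : (1 : ℝ) ≤ n := by exact_mod_cast hn
  have hn0 : (n : ℝ) ≠ 0 := by linarith
  have hκ : 0 ≤ κ := by positivity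
  have hβ : 0 ≤ β := by positivity
  refine ⟨?_, hκ, hβ, ?_, ?_, ?_, ?_, ?_⟩
  · have := card_add x
    have e : β + κ = 1 := by
      simp only [κ, β]
      rw [← add_div, add_comm, this, div_self hn0]
    linarith
  · rw [m1]; simp only [κ]; ring
  · rw [m11 (disj_m x)]; simp only [κ, β]; ring
  · refine (m2 _).trans (le_of_eq ?_); simp only [κ]; ring
  · refine (m21 (disj_m x)).trans (le_of_eq ?_); simp only [κ, β]; ring
  · refine (m12 (disj_m x)).trans (le_of_eq ?_); simp only [κ, β]; ring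

lemma good_abs {k0 K B : ℝ} (hk : 20 ≤ k0) (hB : 0 ≤ B)
    (h : (K - k0) ^ 2 + 2 * B ^ 2 < k0 ^ 2 / 32) : |K - k0| ≤ k0 / 5 ∧ B ≤ k0 / 8 := by
  constructor
  · apply abs_le_of_sq_le_sq _ (by linarith)
    nlinarith [sq_nonneg B]
  · by_contra hb
    rw [not_le] at hb
    nlinarith [sq_nonneg (K - k0)]

lemma good_loads (hn : 1 ≤ n) {c : Conf n} {q : Fin n → ℝ}
    (hq : ∀ i, 1 / (n : ℝ) ≤ q i ∧ q i ≤ 1)
    (hb : (bad q c.x).card ≤ (bad c.p c.x).card) {k0 : ℝ} (hk : 20 ≤ k0)
    (hPhi : Phi k0 c < k0 ^ 2 / 32) : load q c.x true + 2 ≤ load q c.x false := by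
  have h1 : (1 : ℝ) ≤ n := by exact_mod_cast hn
  have hi : 0 < 1 / (n : ℝ) := by positivity
  obtain ⟨g1, g2⟩ := good_abs hk (Nat.cast_nonneg _) hPhi
  have g3 := (abs_le.1 g1).1
  have h2 := load_false_ge (p := q) (x := c.x) (fun i => hi.le.trans (hq i).1)
  have h3 := load_true_le hn (p := q) (x := c.x) (fun i => (hq i).2)
  have h4 : ((bad q c.x).card : ℝ) ≤ (bad c.p c.x).card := by exact_mod_cast hb
  linarith

lemma drift (hn : 400 ≤ n) {c : Conf n} (h : List (Conf n))
    (hp : ∀ i, 1 / (n : ℝ) ≤ c.p i ∧ c.p i ≤ 1) {k0 : ℝ} (hk : 20 ≤ k0)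
    (hkn : k0 ^ 2 ≤ n) (hPhi : Phi k0 c < k0 ^ 2 / 32) :
    Ex (fun S => Phi k0 (next adv c h S)) ≤ Phi k0 c + 42 * (k0 / n) := by
  have hn1 : 1 ≤ n := by omega
  have hnr : (0 : ℝ) < n := by
    have : (400 : ℝ) ≤ n := by exact_mod_cast hn
    linarith
  have hl : load (adj c.p c.x) c.x true + 1 ≤ load (adj c.p c.x) c.x false := by
    have := good_loads hn1 (q := adj c.p c.x) (fun i => adj_range hn1 c.x hp i)
      (by rw [adj_bad]; omega) hk hPhi
    linarith
  obtain ⟨g1, g2⟩ := good_abs hk (Nat.cast_nonneg _) hPhi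
  obtain ⟨mβ, mκ0, mβ0, ma, mab, maa, maab, mabb⟩ := moments hn1 c.x
  set κ := ((m1s c.x).card : ℝ) / n with hκ
  set β := ((m2s c.x).card : ℝ) / n with hβ
  have ht : 0 ≤ k0 / n := by positivity
  have ht1 : k0 / n ≤ 1 / 20 := by
    rw [div_le_div_iff₀ hnr (by norm_num)]
    nlinarith
  have hkt : k0 * (k0 / n) ≤ 1 := by
    have : k0 * (k0 / n) = k0 ^ 2 / n := by ring
    rw [this, div_le_one hnr]; exact hkn
  have hκt : κ ≤ 6 / 5 * (k0 / n) := by
    have e : 6 / 5 * (k0 / n) = (6 / 5 * k0) / n := by ring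
    rw [hκ, e]
    apply div_le_div_of_nonneg_right _ hnr.le
    have := (abs_le.1 g1).2
    linarith
  have hstep := fun S => next_cases hn1 h hp hl S
  by_cases hB : (bad c.p c.x).card ≤ 1
  · have hB' : (bad (adj c.p c.x) c.x).card = 0 := by rw [adj_bad]; omega
    have hpt : ∀ S, Phi k0 (next adv c h S) ≤
        ((((m1s c.x).card : ℝ) - k0) ^ 2) +
        ((2 * (((m1s c.x).card : ℝ) - k0) *
          (cnt (m1s c.x) S * cnt (m2s c.x) S - cnt (m1s c.x) S) +
        4 * |((m1s c.x).card : ℝ) - k0| *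
          ((cnt (m1s c.x) S * cnt (m1s c.x) S - cnt (m1s c.x) S) +
          (cnt (m1s c.x) S * cnt (m1s c.x) S * cnt (m2s c.x) S -
            cnt (m1s c.x) S * cnt (m2s c.x) S))) +
        5 * (cnt (m1s c.x) S * cnt (m1s c.x) S +
          cnt (m1s c.x) S * (cnt (m2s c.x) S * cnt (m2s c.x) S))) := by
      intro S
      have hs := hstep S
      rw [hB'] at hs
      have h0 := step0 (c := ((m1s c.x).card : ℝ) - k0) (a := cnt (m1s c.x) S)
        (b := cnt (m2s c.x) S)
        (d := ((m1s (next adv c h S).x).card : ℝ) - (m1s c.x).card)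
        (B := ((bad (next adv c h S).p (next adv c h S).x).card : ℝ))
        (cnt_nonneg _ _) (Nat.cast_nonneg _) (by
          rcases hs with ⟨s1, s2, s3⟩ | ⟨s1, s2⟩
          · left; exact ⟨s1, by rw [s2]; ring, by rw [s3]; simp⟩
          · right
            refine ⟨s1, ?_⟩
            rcases s2 with ⟨s2, s3, s4⟩ | ⟨s3, s4⟩
            · left
              refine ⟨fun h' => s2 ⟨h', rfl⟩, by rw [s3]; ring, by rw [s4]; simp⟩
            · right
              refine ⟨by rw [s3]; ring, ?_⟩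
              have : ((0 : ℕ) : ℝ) = 0 := Nat.cast_zero
              linarith)
      unfold Phi
      have e : (((m1s (next adv c h S).x).card : ℝ) - k0) ^ 2 =
        (((m1s c.x).card : ℝ) - k0) ^ 2 + (2 * (((m1s c.x).card : ℝ) - k0) *
          (((m1s (next adv c h S).x).card : ℝ) - (m1s c.x).card) +
          (((m1s (next adv c h S).x).card : ℝ) - (m1s c.x).card) ^ 2) := by ring
      rw [e]
      linarith
    refine (Ex_mono hn1 hpt).trans ?_
    simp only [Ex_add, Ex_sub, Ex_mul, Ex_const]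
    have hr := real0 (c := ((m1s c.x).card : ℝ) - k0) g1 mκ0 hκt mβ mβ0 ht ht1 hkt maa maab mabb
    have ma' : Ex (fun S => cnt (m1s c.x) S) = κ := ma
    rw [ma', mab]
    have hP : (((m1s c.x).card : ℝ) - k0) ^ 2 ≤ Phi k0 c := by
      unfold Phi
      have : 0 ≤ 2 * ((bad c.p c.x).card : ℝ) ^ 2 := by positivity
      linarith
    linarith
  · have hBn : (bad c.p c.x).card = (bad (adj c.p c.x) c.x).card + 1 := by rw [adj_bad]; omega
    have hB1 : 1 ≤ (bad (adj c.p c.x) c.x).card := by omega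
    have hBr : ((bad c.p c.x).card : ℝ) = (bad (adj c.p c.x) c.x).card + 1 := by
      exact_mod_cast hBn
    have hB1r : (1 : ℝ) ≤ (bad (adj c.p c.x) c.x).card := by exact_mod_cast hB1
    have hpt : ∀ S, Phi k0 (next adv c h S) ≤
        ((((m1s c.x).card : ℝ) - k0) ^ 2 + 2 * ((bad c.p c.x).card : ℝ) ^ 2) +
        (2 * |((m1s c.x).card : ℝ) - k0| *
          (cnt (m1s c.x) S + cnt (m1s c.x) S * cnt (m2s c.x) S) +
        5 * (cnt (m1s c.x) S * cnt (m1s c.x) S +
          cnt (m1s c.x) S * (cnt (m2s c.x) S * cnt (m2s c.x) S)) +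
        4 * ((bad (adj c.p c.x) c.x).card : ℝ) *
          (cnt (m1s c.x) S + cnt (m1s c.x) S * cnt (m2s c.x) S) -
        4 * ((bad (adj c.p c.x) c.x).card : ℝ) - 2) := by
      intro S
      have hs := hstep S
      have h0 := step1 (c := ((m1s c.x).card : ℝ) - k0) (a := cnt (m1s c.x) S)
        (b := cnt (m2s c.x) S)
        (d := ((m1s (next adv c h S).x).card : ℝ) - (m1s c.x).card)
        (B := ((bad (next adv c h S).p (next adv c h S).x).card : ℝ))
        (B' := ((bad (adj c.p c.x) c.x).card : ℝ))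
        (cnt_nonneg _ _) (Nat.cast_nonneg _) (Nat.cast_nonneg _) (by
          rcases hs with ⟨s1, s2, s3⟩ | ⟨s1, s2⟩
          · left; exact ⟨s1, by rw [s2]; ring, s3⟩
          · right
            refine ⟨by rcases s1 with s1 | s1 <;> linarith, ?_⟩
            rcases s2 with ⟨s2, s3, s4⟩ | ⟨s3, s4⟩
            · left
              exact ⟨by rw [s3]; ring, s4⟩
            · right
              exact ⟨by rw [s3]; ring, s4⟩)
      rw [← hBr] at h0
      unfold Phi
      have e : (((m1s (next adv c h S).x).card : ℝ) - k0) ^ 2 =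
        (((m1s c.x).card : ℝ) - k0) ^ 2 + (2 * (((m1s c.x).card : ℝ) - k0) *
          (((m1s (next adv c h S).x).card : ℝ) - (m1s c.x).card) +
          (((m1s (next adv c h S).x).card : ℝ) - (m1s c.x).card) ^ 2) := by ring
      rw [e]
      linarith
    refine (Ex_mono hn1 hpt).trans ?_
    simp only [Ex_add, Ex_sub, Ex_mul, Ex_const]
    have hr := real1 (c := ((m1s c.x).card : ℝ) - k0) g1 mκ0 hκt mβ mβ0 ht ht1 hkt maa mabb hB1r
    have ma' : Ex (fun S => cnt (m1s c.x) S) = κ := ma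
    rw [ma', mab]
    unfold Phi
    linarith


/-! ### Survival -/

lemma survive_nonneg (hn : 1 ≤ n) (U : ℝ) (A : Adv n) :
    ∀ (N : ℕ) (c : Conf n) (h : List (Conf n)), 0 ≤ survive U A N c h := by
  intro N
  induction N with
  | zero => intro c h; unfold survive; split_ifs <;> simp
  | succ N ih =>
    intro c h
    unfold survive
    split_ifs
    · exact le_refl _
    · exact Finset.sum_nonneg fun S _ => mul_nonneg (wt_nonneg hn S) (ih _ _)

lemma not_hit (hn : 1 ≤ n) {c : Conf n} (h : List (Conf n))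
    (hp : ∀ i, 1 / (n : ℝ) ≤ c.p i ∧ c.p i ≤ 1) {k0 : ℝ} (hk : 20 ≤ k0)
    (hPhi : Phi k0 c < k0 ^ 2 / 32) :
    ¬ (disc c.p c.x ≤ 1 ∨ disc ((adv : Adv n) c h) c.x ≤ 1) := by
  have h1 := good_loads hn (q := c.p) hp le_rfl hk hPhi
  have h2 := good_loads hn (q := adj c.p c.x) (fun i => adj_range hn c.x hp i)
    (by rw [adj_bad]; omega) hk hPhi
  have hA : (adv : Adv n) c h = adj c.p c.x := rfl
  rw [hA]
  unfold disc
  rintro (h3 | h3)
  · have := (abs_le.1 h3).2; linarith
  · have := (abs_le.1 h3).2; linarith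

lemma survive_ge (hn : 400 ≤ n) {k0 : ℝ} (hk : 20 ≤ k0) (hkn : k0 ^ 2 ≤ n) :
    ∀ (N : ℕ) (c : Conf n) (h : List (Conf n)), (∀ i, 1 / (n : ℝ) ≤ c.p i ∧ c.p i ≤ 1) →
      1 - (Phi k0 c + N * (42 * (k0 / n))) / (k0 ^ 2 / 32) ≤ survive 1 adv N c h := by
  have hn1 : 1 ≤ n := by omega
  have hM : 0 < k0 ^ 2 / 32 := by positivity
  have hd : 0 ≤ 42 * (k0 / (n : ℝ)) := by positivity
  have hbig : ∀ (N : ℕ) (c : Conf n) (h : List (Conf n)), k0 ^ 2 / 32 ≤ Phi k0 c →
      1 - (Phi k0 c + N * (42 * (k0 / n))) / (k0 ^ 2 / 32) ≤ survive 1 adv N c h := by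
    intro N c h hc
    refine le_trans ?_ (survive_nonneg hn1 1 adv N c h)
    have h0 : 0 ≤ (N : ℝ) * (42 * (k0 / n)) := by positivity
    have : 1 ≤ (Phi k0 c + N * (42 * (k0 / n))) / (k0 ^ 2 / 32) := by
      rw [le_div_iff₀ hM]; linarith
    linarith
  intro N
  induction N with
  | zero =>
    intro c h hp
    rcases lt_or_ge (Phi k0 c) (k0 ^ 2 / 32) with hc | hc
    · unfold survive
      rw [if_neg (not_hit hn1 h hp hk hc)]
      have h0 : 0 ≤ (Phi k0 c + ((0 : ℕ) : ℝ) * (42 * (k0 / n))) / (k0 ^ 2 / 32) := by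
        have : 0 ≤ Phi k0 c := by unfold Phi; positivity
        positivity
      linarith
    · exact hbig 0 c h hc
  | succ N ih =>
    intro c h hp
    rcases lt_or_ge (Phi k0 c) (k0 ^ 2 / 32) with hc | hc
    · unfold survive
      rw [if_neg (not_hit hn1 h hp hk hc)]
      have hd1 := drift hn h hp hk hkn hc
      have hmono : Ex (fun S => 1 - (Phi k0 (next adv c h S) + N * (42 * (k0 / n))) /
          (k0 ^ 2 / 32)) ≤ ∑ S : Finset (Fin n), wt S *
            survive 1 adv N (next adv c h S) (c :: h) := by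
        change _ ≤ Ex (fun S => survive 1 adv N (next adv c h S) (c :: h))
        apply Ex_mono hn1
        intro S
        exact ih _ _ (fun i => adj_range hn1 c.x hp i)
      refine le_trans ?_ hmono
      have e : Ex (fun S => 1 - (Phi k0 (next adv c h S) + N * (42 * (k0 / n))) /
          (k0 ^ 2 / 32)) = 1 - (Ex (fun S => Phi k0 (next adv c h S)) + N * (42 * (k0 / n))) /
          (k0 ^ 2 / 32) := by
        have e1 : (fun S => 1 - (Phi k0 (next adv c h S) + N * (42 * (k0 / n))) /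
          (k0 ^ 2 / 32)) = (fun S => 1 - (k0 ^ 2 / 32)⁻¹ * (Phi k0 (next adv c h S) +
            N * (42 * (k0 / n)))) := by
          funext S; rw [div_eq_inv_mul]
        rw [e1]
        simp only [Ex_sub, Ex_mul, Ex_add, Ex_const]
        ring
      rw [e]
      push_cast
      have h5 : (Ex (fun S => Phi k0 (next adv c h S)) + N * (42 * (k0 / n))) /
          (k0 ^ 2 / 32) ≤ (Phi k0 c + (N + 1) * (42 * (k0 / n))) / (k0 ^ 2 / 32) := by
        apply div_le_div_of_nonneg_right _ hM.le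
        linarith
      linarith
    · exact hbig (N + 1) c h hc

/-- the instance -/
lemma exists_init (hn : 400 ≤ n) : ∃ c : Conf n, (∀ i, 1 / (n : ℝ) ≤ c.p i ∧ c.p i ≤ 1) ∧
    Phi (Nat.sqrt n : ℝ) c = 0 := by
  classical
  have hn1 : 1 ≤ n := by omega
  have hle : Nat.sqrt n ≤ (Finset.univ : Finset (Fin n)).card := by
    rw [Finset.card_univ, Fintype.card_fin]; exact Nat.sqrt_le_self n
  obtain ⟨t, -, ht⟩ := Finset.exists_subset_card_eq hle
  let x : Fin n → Bool := fun i => if i ∈ t then false else true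
  refine ⟨⟨x, fun i => tgt n (x i)⟩, fun i => tgt_mem hn1 _, ?_⟩
  have h1 : m1s x = t := by
    ext i
    simp only [m1s, x, Finset.mem_filter, Finset.mem_univ, true_and]
    by_cases h : i ∈ t <;> simp [h]
  have h2 : bad (fun i => tgt n (x i)) x = ∅ := by
    ext i
    rw [mem_bad]; simp
  unfold Phi
  simp only
  rw [h1, h2, ht]
  simp

lemma half_survive {M δ N : ℝ} (hM : 0 < M) (h : N * δ ≤ M / 2) :
    1 / 2 ≤ 1 - (0 + N * δ) / M := by
  have : (0 + N * δ) / M ≤ 1 / 2 := by
    rw [div_le_iff₀ hM]; linarith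
  linarith

lemma final_real {s k nn N0 : ℝ} (hnn : 0 < nn) (hk : 20 ≤ k) (hs : s ≤ k + 1)
    (hN0 : k ^ 2 / 32 / (2 * (42 * (k / nn))) ≤ N0) : nn * s / 6000 ≤ N0 * (1 / 2) := by
  have e : k ^ 2 / 32 / (2 * (42 * (k / nn))) = k * nn / 2688 := by
    have : k ≠ 0 := by linarith
    field_simp
    norm_num
  rw [e] at hN0
  have h1 : nn * s ≤ nn * (k + 1) := mul_le_mul_of_nonneg_left hs hnn.le
  have h2 : nn * 20 ≤ nn * k := mul_le_mul_of_nonneg_left hk hnn.le
  linarith

/-- The instance with `L = 1 / n`, `U = 1`. -/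
theorem main (hn : 400 ≤ n) : ∃ c : Conf n, (∀ i, 1 / (n : ℝ) ≤ c.p i ∧ c.p i ≤ 1) ∧
    ENNReal.ofReal ((n : ℝ) * √n / 6000) ≤ expT 1 adv c := by
  obtain ⟨c, hc, hPhi⟩ := exists_init hn
  refine ⟨c, hc, ?_⟩
  have hn1 : 1 ≤ n := by omega
  have hnr : (0 : ℝ) < n := by
    have : (400 : ℝ) ≤ n := by exact_mod_cast hn
    linarith
  have hk : (20 : ℝ) ≤ Nat.sqrt n := by
    have : 20 ≤ Nat.sqrt n := by
      rw [Nat.le_sqrt]; omega
    exact_mod_cast this
  have hkn : ((Nat.sqrt n : ℕ) : ℝ) ^ 2 ≤ n := by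
    have := Nat.sqrt_le' n
    exact_mod_cast this
  set k : ℝ := (Nat.sqrt n : ℝ) with hkdef
  have hδ : 0 < 42 * (k / n) := by positivity
  have hM : 0 < k ^ 2 / 32 := by positivity
  set N0 : ℕ := ⌊k ^ 2 / 32 / (2 * (42 * (k / n)))⌋₊ with hN0
  have hsum : ∑ N ∈ Finset.range (N0 + 1), ENNReal.ofReal (1 / 2) ≤ expT 1 adv c := by
    unfold expT
    refine le_trans (Finset.sum_le_sum ?_)
      (ENNReal.sum_le_tsum (f := fun N : ℕ => ENNReal.ofReal (survive 1 adv N c []))
        (Finset.range (N0 + 1)))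
    intro N hN
    apply ENNReal.ofReal_le_ofReal
    have h1 := survive_ge hn hk hkn N c [] hc
    rw [hPhi] at h1
    refine le_trans (half_survive hM ?_) h1
    have h2 : (N : ℝ) ≤ k ^ 2 / 32 / (2 * (42 * (k / n))) := by
      have h3 : N ≤ N0 := by rw [Finset.mem_range] at hN; omega
      have h4 : (N0 : ℝ) ≤ k ^ 2 / 32 / (2 * (42 * (k / n))) :=
        Nat.floor_le (by positivity)
      have h5 : (N : ℝ) ≤ N0 := by exact_mod_cast h3
      linarith
    rw [le_div_iff₀ (by positivity)] at h2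
    linarith
  refine le_trans ?_ hsum
  rw [Finset.sum_const, Finset.card_range, nsmul_eq_mul]
  have e : ((N0 + 1 : ℕ) : ENNReal) * ENNReal.ofReal (1 / 2) =
      ENNReal.ofReal (((N0 : ℝ) + 1) * (1 / 2)) := by
    rw [ENNReal.ofReal_mul (by positivity)]
    congr 1
    rw [← ENNReal.ofReal_natCast]
    push_cast
    rfl
  rw [e]
  apply ENNReal.ofReal_le_ofReal
  apply final_real hnr hk
  · exact Real.real_sqrt_le_nat_sqrt_succ
  · exact (Nat.lt_floor_add_one _).le

lemma main' (hn : 400 ≤ n) : ∃ (c : Conf n) (A : Adv n),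
    (∀ i, 1 / (n : ℝ) ≤ c.p i ∧ c.p i ≤ 1) ∧ Valid (1 / (n : ℝ)) 1 A ∧
    ENNReal.ofReal ((n : ℝ) ^ (3 / 2 : ℝ) / 6000) ≤ expT 1 A c := by
  obtain ⟨c, h1, h2⟩ := main hn
  refine ⟨c, adv, h1, adv_valid (by omega), ?_⟩
  have hnr : (0 : ℝ) < n := by
    have : (400 : ℝ) ≤ n := by exact_mod_cast hn
    linarith
  have e : (n : ℝ) ^ (3 / 2 : ℝ) = n * √n := by
    rw [show (3 / 2 : ℝ) = 1 + 1 / 2 by norm_num, Real.rpow_add hnr, Real.rpow_one,
      Real.sqrt_eq_rpow]
  rw [e]
  exact h2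

/-- **Result.** For all `n ≥ 400` there are initial processing times in `[1 / n, 1]`, an initial
solution and an adversary with `E[T] ≥ n ^ (3/2) / 6000`; hence `T*(n) ≥ n ^ (3/2) / 6000`.
In particular `T*(n)` is not `O(n log n)`. -/
theorem result :
    (∀ n : ℕ, 400 ≤ n → ∃ (c : Conf n) (A : Adv n),
      (∀ i, 1 / (n : ℝ) ≤ c.p i ∧ c.p i ≤ 1) ∧ Valid (1 / (n : ℝ)) 1 A ∧
      ENNReal.ofReal ((n : ℝ) ^ (3 / 2 : ℝ) / 6000) ≤ expT 1 A c) ∧
    (∀ n : ℕ, 400 ≤ n → ENNReal.ofReal ((n : ℝ) ^ (3 / 2 : ℝ) / 6000) ≤ Tstar n) ∧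
    (∀ C : ℝ, ∃ n : ℕ, 2 ≤ n ∧ ∃ (L U : ℝ) (c : Conf n) (A : Adv n), 0 < L ∧ L ≤ U ∧
      (∀ i, L ≤ c.p i ∧ c.p i ≤ U) ∧ Valid L U A ∧
      ENNReal.ofReal (C * (n * Real.log n)) < expT U A c) := by
  refine ⟨fun n hn => main' hn, ?_, ?_⟩
  · intro n hn
    obtain ⟨c, A, h1, h2, h3⟩ := main' hn
    have hn1 : (1 : ℝ) ≤ n := by
      have : (400 : ℝ) ≤ n := by exact_mod_cast hn
      linarith
    refine h3.trans ?_
    unfold Tstar
    refine le_iSup_of_le (1 / (n : ℝ)) (le_iSup_of_le 1 (le_iSup_of_le ⟨by positivity, ?_⟩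
      (le_iSup_of_le c (le_iSup_of_le h1 (le_iSup_of_le A (le_iSup_of_le h2 le_rfl))))))
    rw [div_le_one (by linarith)]; exact hn1
  · intro C
    have hlog := (isLittleO_log_rpow_atTop (show (0 : ℝ) < 1 / 2 by norm_num)).bound
      (show (0 : ℝ) < 1 / (12000 * (|C| + 1)) by positivity)
    have hev := tendsto_natCast_atTop_atTop.eventually hlog
    obtain ⟨n, hn1, hn2⟩ := (hev.and (Filter.eventually_ge_atTop 400)).exists
    obtain ⟨c, A, h1, h2, h3⟩ := main' hn2
    have hnr : (400 : ℝ) ≤ n := by exact_mod_cast hn2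
    have hn0 : (0 : ℝ) < n := by linarith
    refine ⟨n, by omega, 1 / n, 1, c, A, by positivity, ?_, h1, h2, lt_of_lt_of_le ?_ h3⟩
    · rw [div_le_one hn0]; linarith
    · rw [ENNReal.ofReal_lt_ofReal_iff (by positivity)]
      have e : (n : ℝ) ^ (3 / 2 : ℝ) = n * (n : ℝ) ^ (1 / 2 : ℝ) := by
        rw [show (3 / 2 : ℝ) = 1 + 1 / 2 by norm_num, Real.rpow_add hn0, Real.rpow_one]
      rw [e]
      have hp : 0 < (n : ℝ) ^ (1 / 2 : ℝ) := by positivity
      rw [Real.norm_eq_abs, Real.norm_eq_abs, abs_of_pos hp,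
        abs_of_nonneg (Real.log_nonneg (by linarith))] at hn1
      have hC : C ≤ |C| + 1 := by linarith [le_abs_self C]
      have hC0 : 0 < |C| + 1 := by positivity
      have hl0 : 0 ≤ Real.log n := Real.log_nonneg (by linarith)
      have h5 : C * Real.log n ≤ (|C| + 1) * Real.log n := mul_le_mul_of_nonneg_right hC hl0
      have h6 : (|C| + 1) * Real.log n ≤
          (|C| + 1) * (1 / (12000 * (|C| + 1)) * (n : ℝ) ^ (1 / 2 : ℝ)) :=
        mul_le_mul_of_nonneg_left hn1 hC0.le
      have h7 : (|C| + 1) * (1 / (12000 * (|C| + 1)) * (n : ℝ) ^ (1 / 2 : ℝ)) =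
          (n : ℝ) ^ (1 / 2 : ℝ) / 12000 := by
        field_simp
      rw [h7] at h6
      have h8 : C * Real.log n < (n : ℝ) ^ (1 / 2 : ℝ) / 6000 := by linarith
      calc C * (n * Real.log n) = n * (C * Real.log n) := by ring
        _ < n * ((n : ℝ) ^ (1 / 2 : ℝ) / 6000) := mul_lt_mul_of_pos_left h8 hn0
        _ = _ := by ring

end Pool.Agent.Results.MP_dc81eb_lc.ThreeHalves
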